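import Pool.Agent.W325.S3.Stm
import Pool.Agent.H46R2.K3.Basic

/-!
Project S3: leg words are monotone, and concatenation of exit words.
-/

set_option autoImplicit false

namespace Pool.Agent.W214.S3

open Finset Pool.Agent.H46R2.K3 Pool.Agent.H46R2.K3.P Pool.Agent.W325.S3

lemma eq_length_of_pos {u : List St} (hu : Saw u) {i : ℕ} (hi : i ≤ u.length)
    (h : pos u i = disp u) : i = u.length := by
  by_contra hne
  have hlt : i < u.length := lt_of_le_of_ne hi hne
  exact hu i u.length hlt le_rfl (h.trans (pos_length u).symm)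

theorem legm : S_LEGM := by
  intro d lam u hu
  obtain ⟨hsaw, hdisp, hpos, hcone⟩ := hu
  refine ⟨hsaw, fun i hi => ?_⟩
  have hSd : Sg (disp u) = (lam : ℤ) := by
    rw [hdisp]
    unfold Sg ax
    fin_cases d <;> simp
  -- the two other coordinates
  have key : ∃ a b : ℤ, Sg (pos u i) = pos u i d + a + b ∧ 3 * |a| ≤ pos u i d ∧
      3 * |b| ≤ pos u i d ∧ 3 * |a| ≤ lam - pos u i d ∧ 3 * |b| ≤ lam - pos u i d ∧
      (a = 0 → b = 0 → pos u i d = lam → pos u i = disp u) := by
    have hc := hcone i hi
    fin_cases d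
    · have h1 := hc 1 (by decide)
      have h2 := hc 2 (by decide)
      refine ⟨pos u i 1, pos u i 2, rfl, h1.1, h2.1, h1.2, h2.2, fun e1 e2 e3 => ?_⟩
      rw [hdisp]
      funext t
      unfold ax
      fin_cases t
      · simpa using e3
      · simpa using e1
      · simpa using e2
    · have h1 := hc 0 (by decide)
      have h2 := hc 2 (by decide)
      refine ⟨pos u i 0, pos u i 2, by unfold Sg; simp only [Fin.mk_one]; ring, h1.1, h2.1, h1.2,
        h2.2, fun e1 e2 e3 => ?_⟩
      rw [hdisp]
      funext t
      unfold ax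
      fin_cases t
      · simpa using e1
      · simpa using e3
      · simpa using e2
    · have h1 := hc 0 (by decide)
      have h2 := hc 1 (by decide)
      refine ⟨pos u i 0, pos u i 1, by unfold Sg; simp only [Fin.reduceFinMk]; ring, h1.1, h2.1,
        h1.2, h2.2, fun e1 e2 e3 => ?_⟩
      rw [hdisp]
      funext t
      unfold ax
      fin_cases t
      · simpa using e1
      · simpa using e2
      · simpa using e3
  obtain ⟨a, b, hS, h1, h2, h3, h4, h5⟩ := key
  have ha := abs_le.1 (le_refl |a|)
  have hb := abs_le.1 (le_refl |b|)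
  have ha0 := abs_nonneg a
  have hb0 := abs_nonneg b
  rw [hS, hSd]
  refine ⟨by linarith [ha.1, hb.1], by linarith [ha.2, hb.2], fun h0 => ?_, fun h0 => ?_⟩
  · by_contra hne
    have h6 := (hpos i (by omega) hi).1
    linarith [ha.1, hb.1]
  · have e1 : pos u i d = lam := by
      have e2 : |a| + |b| ≥ lam - pos u i d := by linarith [ha.2, hb.2]
      have e3 : lam - pos u i d ≤ 0 := by linarith
      linarith
    have e4 : |a| = 0 := by linarith
    have e5 : |b| = 0 := by linarith
    exact eq_length_of_pos hsaw hi (h5 (abs_eq_zero.1 e4) (abs_eq_zero.1 e5) e1)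

lemma Sg_add (x y : V) : Sg (x + y) = Sg x + Sg y := by
  unfold Sg
  simp only [Pi.add_apply]
  ring

/-- concatenation of monotone words -/
lemma mono_append {u v : List St} (hu : Mono u) (hv : Mono v) : Mono (u ++ v) := by
  have hu0 : 0 ≤ Sg (disp u) := by
    have := (hu.2 u.length le_rfl).1
    rwa [pos_length] at this
  have hv0 : 0 ≤ Sg (disp v) := by
    have := (hv.2 v.length le_rfl).1
    rwa [pos_length] at this
  have hd : Sg (disp (u ++ v)) = Sg (disp u) + Sg (disp v) := by rw [disp_append, Sg_add]
  refine ⟨?_, fun i hi => ?_⟩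
  · intro i j hij hj hc
    rw [List.length_append] at hj
    rcases le_or_gt j u.length with h1 | h1
    · rw [pos_append_left v (by omega), pos_append_left v h1] at hc
      exact hu.1 i j hij h1 hc
    · rcases lt_or_ge i u.length with h2 | h2
      · rw [pos_append_left v h2.le, pos_append_right' v h1.le] at hc
        have h3 := congrArg Sg hc
        rw [Sg_add] at h3
        have h4 := hu.2 i h2.le
        have h5 := hv.2 (j - u.length) (by omega)
        have h6 : i = u.length := h4.2.2.2 (by linarith [h4.2.1, h5.1])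
        omega
      · rw [pos_append_right' v h2, pos_append_right' v h1.le] at hc
        exact hv.1 (i - u.length) (j - u.length) (by omega) (by omega) (add_left_cancel hc)
  · rw [hd]
    rcases le_or_gt i u.length with h1 | h1
    · rw [pos_append_left v h1]
      have h4 := hu.2 i h1
      refine ⟨h4.1, by linarith [h4.2.1], h4.2.2.1, fun h5 => ?_⟩
      have h6 : Sg (disp v) = 0 := by linarith [h4.2.1]
      have h7 : i = u.length := h4.2.2.2 (by linarith)
      have h8 : v.length = 0 := (hv.2 v.length le_rfl).2.2.1 (by rw [pos_length]; exact h6)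
      rw [List.length_append]
      omega
    · rw [pos_append_right' v h1.le, Sg_add]
      rw [List.length_append] at hi
      have h5 := hv.2 (i - u.length) (by omega)
      refine ⟨by linarith [h5.1], by linarith [h5.2.1], fun h6 => ?_, fun h6 => ?_⟩
      · have h7 : Sg (pos v (i - u.length)) = 0 := by linarith [h5.1]
        have h8 := h5.2.2.1 h7
        omega
      · have h7 := h5.2.2.2 (by linarith)
        rw [List.length_append]
        omega

lemma hits_append (A : Finset V) (a : V) (u v : List St) :
    hits A a (u ++ v) ≤ hits A a u + hits A (a + disp u) v := by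
  classical
  unfold hits
  have hsub : (Icc 1 (u ++ v).length).filter (fun j => a + pos (u ++ v) j ∈ A) ⊆
      (Icc 1 u.length).filter (fun j => a + pos u j ∈ A) ∪
        ((Icc 1 v.length).filter (fun j => a + disp u + pos v j ∈ A)).image
          (fun j => u.length + j) := by
    intro j hj
    rw [mem_filter, mem_Icc, List.length_append] at hj
    obtain ⟨⟨h1, h2⟩, h3⟩ := hj
    rw [mem_union]
    rcases le_or_gt j u.length with h4 | h4
    · left
      rw [pos_append_left v h4] at h3
      exact mem_filter.2 ⟨mem_Icc.2 ⟨h1, h4⟩, h3⟩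
    · right
      rw [pos_append_right' v h4.le, ← add_assoc] at h3
      exact mem_image.2 ⟨j - u.length, mem_filter.2 ⟨mem_Icc.2 ⟨by omega, by omega⟩, h3⟩,
        by omega⟩
  refine (card_le_card hsub).trans ((card_union_le _ _).trans ?_)
  exact Nat.add_le_add_left card_image_le _

theorem app : S_APP := by
  classical
  intro A a lo hi lo₁ hi₁ lo₂ hi₂ U₁ U₂ L₁ L₂ z₁ z₂ Y₁ Y₂ h1 h2 hl1 hl2 hh1 hh2
  have hinj : Set.InjOn (fun p : List St × List St => p.1 ++ p.2) ↑(U₁ ×ˢ U₂) := by
    rintro ⟨u, v⟩ hp ⟨u', v'⟩ hp' heq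
    rw [mem_coe, mem_product] at hp hp'
    have := append_inj_of_length ((h1.len _ hp.1).trans (h1.len _ hp'.1).symm) heq
    exact Prod.ext this.1 this.2
  refine ⟨(U₁ ×ˢ U₂).image (fun p => p.1 ++ p.2), ?_, ?_, ?_, ?_, ?_, ?_⟩
  · intro w hw
    obtain ⟨⟨u, v⟩, hp, rfl⟩ := mem_image.1 hw
    rw [mem_product] at hp
    simp only [List.length_append, h1.len u hp.1, h2.len v hp.2]
  · intro w hw
    obtain ⟨⟨u, v⟩, hp, rfl⟩ := mem_image.1 hw
    rw [mem_product] at hp
    simp only [disp_append, h1.disp u hp.1, h2.disp v hp.2]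
  · intro w hw
    obtain ⟨⟨u, v⟩, hp, rfl⟩ := mem_image.1 hw
    rw [mem_product] at hp
    exact mono_append (h1.mono u hp.1) (h2.mono v hp.2)
  · intro w hw i hi
    obtain ⟨⟨u, v⟩, hp, rfl⟩ := mem_image.1 hw
    rw [mem_product] at hp
    have e1 := h1.len u hp.1
    simp only
    rcases le_or_gt i u.length with h4 | h4
    · rw [pos_append_left v h4]
      have h5 := h1.ht u hp.1 i (by omega)
      exact ⟨by omega, by omega⟩
    · rw [pos_append_right' v h4.le, h1.disp u hp.1]
      have h5 := h2.ht v hp.2 (i - u.length) (by omega)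
      simp only [Pi.add_apply]
      exact ⟨by omega, by omega⟩
  · intro w hw
    obtain ⟨⟨u, v⟩, hp, rfl⟩ := mem_image.1 hw
    rw [mem_product] at hp
    have h4 := hits_append A a u v
    rw [h1.disp u hp.1] at h4
    have h5 : (hits A a (u ++ v) : ℝ) ≤ (hits A a u : ℝ) + (hits A (a + z₁) v : ℝ) := by
      exact_mod_cast h4
    have h6 := h1.hit u hp.1
    have h7 := h2.hit v hp.2
    simp only
    linarith
  · rw [card_image_of_injOn hinj, card_product]
    push_cast
    have e1 : mu ^ (L₁ + L₂) * Real.exp (-(Y₁ + Y₂)) =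
        (mu ^ L₁ * Real.exp (-Y₁)) * (mu ^ L₂ * Real.exp (-Y₂)) := by
      rw [pow_add, neg_add, Real.exp_add]
      ring
    rw [e1]
    have hmu : 0 ≤ mu := by
      unfold mu
      exact Real.iInf_nonneg fun n => by positivity
    exact mul_le_mul h1.card h2.card (by positivity) (by positivity)

end Pool.Agent.W214.S3
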